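import Pool.Agent.Y714.KF.Stm2

/-!
# Counting lattice points with a weight which is almost constant on residue classes
-/

set_option autoImplicit false
set_option linter.unusedSectionVars false

namespace Pool.Agent.Y100.KF

open MeasureTheory Filter Topology Finset Pool.Agent.Y714.KF

variable {ι : Type} [Fintype ι] {D : Set (ι → ℝ)} {Ψ : (ι → ℝ) → ℝ}

/-- the region -/
def A (D : Set (ι → ℝ)) (Ψ : (ι → ℝ) → ℝ) (s l : ℝ) : Set (ι → ℝ) := {u | u ∈ D ∧ Ψ u * l ≤ s}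

theorem op_lt (hD : IsOpen D) (hΨ : ContinuousOn Ψ D) (s l : ℝ) :
    IsOpen (D ∩ (fun u => Ψ u * l) ⁻¹' Set.Iio s) :=
  (hΨ.mul continuousOn_const).isOpen_inter_preimage hD isOpen_Iio

theorem op_gt (hD : IsOpen D) (hΨ : ContinuousOn Ψ D) (s l : ℝ) :
    IsOpen (D ∩ (fun u => Ψ u * l) ⁻¹' Set.Ioi s) :=
  (hΨ.mul continuousOn_const).isOpen_inter_preimage hD isOpen_Ioi

theorem A_meas (hD : IsOpen D) (hΨ : ContinuousOn Ψ D) (s l : ℝ) :
    MeasurableSet (A D Ψ s l) := by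
  have h2 : A D Ψ s l = D \ (D ∩ (fun u => Ψ u * l) ⁻¹' Set.Ioi s) := by
    ext u
    constructor
    · rintro ⟨h3, h4⟩
      exact ⟨h3, fun h => absurd h4 (not_le.mpr h.2)⟩
    · rintro ⟨h3, h4⟩
      exact ⟨h3, not_lt.mp fun h => h4 ⟨h3, h⟩⟩
  rw [h2]
  exact hD.measurableSet.diff (op_gt hD hΨ s l).measurableSet

theorem A_front (hD : IsOpen D) (hΨ : ContinuousOn Ψ D) (s : ℝ) {l : ℝ} (hl : 0 < l) :
    frontier (A D Ψ s l) ⊆ frontier D ∪ {u ∈ D | Ψ u = s / l} := by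
  intro u hu
  by_cases huD : u ∈ D
  · right
    refine ⟨huD, ?_⟩
    rcases lt_trichotomy (Ψ u * l) s with h | h | h
    · exfalso
      exact hu.2 (mem_interior.mpr ⟨_, fun v hv => ⟨hv.1, le_of_lt hv.2⟩, op_lt hD hΨ s l, huD, h⟩)
    · rw [eq_div_iff hl.ne']
      exact h
    · exfalso
      obtain ⟨v, hv1, hv2⟩ := mem_closure_iff.mp hu.1 _ (op_gt hD hΨ s l) ⟨huD, h⟩
      exact absurd hv2.2 (not_le.mpr hv1.2)
  · left
    rw [hD.frontier_eq]
    exact ⟨closure_mono (fun v hv => hv.1) hu.1, huD⟩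

/-- the volume -/
noncomputable def V (D : Set (ι → ℝ)) (Ψ : (ι → ℝ) → ℝ) (s l : ℝ) : ℝ := volume.real (A D Ψ s l)

theorem V_cont (hb : Bornology.IsBounded D) (hD : IsOpen D) (hΨ : ContinuousOn Ψ D)
    (hn : ∀ c : ℝ, 0 < c → volume {u ∈ D | Ψ u = c} = 0) {s : ℝ} (hs : 0 < s) {l : ℝ}
    (hl : 0 < l) : ContinuousAt (V D Ψ s) l := by
  have hfin : volume D < ⊤ := hb.measure_lt_top
  have e : V D Ψ s = fun l => ∫ u, (A D Ψ s l).indicator (fun _ => (1 : ℝ)) u := by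
    funext l
    rw [integral_indicator_const _ (A_meas hD hΨ s l)]
    simp [V]
  rw [e]
  refine tendsto_integral_filter_of_dominated_convergence (D.indicator fun _ => (1 : ℝ))
    ?_ ?_ ?_ ?_
  · exact Eventually.of_forall fun l => aestronglyMeasurable_const.indicator (A_meas hD hΨ s l)
  · refine Eventually.of_forall fun l => Eventually.of_forall fun u => ?_
    by_cases h : u ∈ A D Ψ s l
    · rw [Set.indicator_of_mem h, Set.indicator_of_mem h.1]
      simp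
    · rw [Set.indicator_of_notMem h, norm_zero]
      exact Set.indicator_nonneg (fun _ _ => zero_le_one) u
  · exact (integrable_indicator_iff hD.measurableSet).mpr (integrableOn_const hfin.ne)
  · have h0 : ∀ᵐ u : ι → ℝ, u ∉ {u ∈ D | Ψ u = s / l} :=
      measure_eq_zero_iff_ae_notMem.mp (hn _ (div_pos hs hl))
    filter_upwards [h0] with u hu
    by_cases huD : u ∈ D
    · have hc : Continuous fun l' : ℝ => Ψ u * l' := by fun_prop
      rcases lt_trichotomy (Ψ u * l) s with h | h | h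
      · have h1 : ∀ᶠ l' in 𝓝 l, Ψ u * l' < s := hc.continuousAt.eventually_lt continuousAt_const h
        rw [Set.indicator_of_mem (show u ∈ A D Ψ s l from ⟨huD, h.le⟩)]
        refine tendsto_const_nhds.congr' ?_
        filter_upwards [h1] with l' h2
        rw [Set.indicator_of_mem (show u ∈ A D Ψ s l' from ⟨huD, h2.le⟩)]
      · exfalso
        apply hu
        refine ⟨huD, ?_⟩
        rw [eq_div_iff hl.ne']
        exact h
      · have h1 : ∀ᶠ l' in 𝓝 l, s < Ψ u * l' := continuousAt_const.eventually_lt hc.continuousAt h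
        rw [Set.indicator_of_notMem (show u ∉ A D Ψ s l from fun h3 => absurd h3.2 (not_le.mpr h))]
        refine tendsto_const_nhds.congr' ?_
        filter_upwards [h1] with l' h2
        rw [Set.indicator_of_notMem
          (show u ∉ A D Ψ s l' from fun h3 => absurd h3.2 (not_le.mpr h2))]
    · have h1 : ∀ l', (A D Ψ s l').indicator (fun _ => (1 : ℝ)) u = 0 := fun l' =>
        Set.indicator_of_notMem (fun h3 => huD h3.1) _
      simp only [h1]
      exact tendsto_const_nhds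

theorem V_unif (hb : Bornology.IsBounded D) (hD : IsOpen D) (hΨ : ContinuousOn Ψ D)
    (hn : ∀ c : ℝ, 0 < c → volume {u ∈ D | Ψ u = c} = 0) {s : ℝ} (hs : 0 < s) {a : ℝ}
    (ha : 0 < a) (b : ℝ) {η : ℝ} (hη : 0 < η) : ∃ δ : ℝ, 0 < δ ∧ ∀ x ∈ Set.Icc a b,
      ∀ y ∈ Set.Icc a b, |x - y| < δ → |V D Ψ s x - V D Ψ s y| < η := by
  have hc : ContinuousOn (V D Ψ s) (Set.Icc a b) := fun x hx =>
    (V_cont hb hD hΨ hn hs (lt_of_lt_of_le ha hx.1)).continuousWithinAt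
  have hu := isCompact_Icc.uniformContinuousOn_of_continuous hc
  obtain ⟨δ, hδ, h⟩ := Metric.uniformContinuousOn_iff.mp hu η hη
  exact ⟨δ, hδ, fun x hx y hy hxy => h x hx y hy hxy⟩

/-- finitely many lattice points -/
theorem fin_pts (hb : Bornology.IsBounded D) {Y : ℕ} (hY : 1 ≤ Y) :
    {z : ι → ℤ | (fun i => (z i : ℝ) / Y) ∈ D}.Finite := by
  classical
  obtain ⟨R, hR⟩ := hb.exists_norm_le
  refine (Set.finite_Icc (fun _ : ι => -⌈R * Y⌉) (fun _ : ι => ⌈R * Y⌉)).subset ?_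
  intro z hz
  have hY0 : (0 : ℝ) < Y := by
    have : (1 : ℝ) ≤ Y := by exact_mod_cast hY
    linarith
  have h1 := hR _ hz
  have h2 : ∀ i, |(z i : ℝ)| ≤ R * Y := by
    intro i
    have h3 := (norm_le_pi_norm (fun i => (z i : ℝ) / Y) i).trans h1
    rw [Real.norm_eq_abs, abs_div, abs_of_pos hY0, div_le_iff₀ hY0] at h3
    exact h3
  refine ⟨fun i => ?_, fun i => ?_⟩
  · have h3 := (abs_le.mp (h2 i)).1
    have h4 := Int.le_ceil (R * Y)
    have h5 : (-⌈R * Y⌉ : ℝ) ≤ z i := by linarith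
    exact_mod_cast h5
  · have h3 := (abs_le.mp (h2 i)).2
    have h4 := Int.le_ceil (R * Y)
    have h5 : (z i : ℝ) ≤ ⌈R * Y⌉ := by linarith
    exact_mod_cast h5

/-- ELM -/
theorem elm (h : S_LPC) : S_ELM := by
  classical
  intro ι _ D Ψ m M s hb hD hfr hΨ hpos hn hm hs η hη
  obtain ⟨δ, hδ, hV⟩ := V_unif hb hD hΨ hn hs (show 0 < m / 2 by linarith) (M + 1)
    (show 0 < η / 2 by linarith)
  refine ⟨min (m / 2) (min 1 (δ / 2)), by positivity, ?_⟩
  set ε : ℝ := min (m / 2) (min 1 (δ / 2)) with hε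
  have hε0 : 0 < ε := by positivity
  have hε1 : ε ≤ m / 2 := min_le_left _ _
  have hε2 : ε ≤ 1 := (min_le_right _ _).trans (min_le_left _ _)
  have hε3 : ε ≤ δ / 2 := (min_le_right _ _).trans (min_le_right _ _)
  intro q hq U G f hG hf hff
  have : NeZero q := ⟨hq.ne'⟩
  -- the residue class
  set r : (ι → ℤ) → (ι → ZMod q) := fun z i => (z i : ZMod q) with hr
  have hqR : (0 : ℝ) < (q : ℝ) ^ Fintype.card ι := by positivity
  set U' : Finset (ι → ZMod q) := univ.filter fun ρ => ρ ∈ U ∧ ∃ z, G z ∧ r z = ρ with hU'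
  have hU'c : (#U' : ℝ) ≤ (q : ℝ) ^ Fintype.card ι := by
    have h1 : #U' ≤ q ^ Fintype.card ι := by
      refine (Finset.card_le_univ _).trans (le_of_eq ?_)
      rw [Fintype.card_fun, ZMod.card]
    exact_mod_cast h1
  have hch : ∀ ρ : ι → ZMod q, ∃ z, ρ ∈ U' → G z ∧ r z = ρ := by
    intro ρ
    by_cases h1 : ρ ∈ U'
    · obtain ⟨-, z, hz⟩ := (Finset.mem_filter.mp h1).2
      exact ⟨z, fun _ => hz⟩
    · exact ⟨0, fun h2 => absurd h2 h1⟩
  choose zz hzz using hch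
  have hU1 : ∀ ρ ∈ U', ρ ∈ U := fun ρ h1 => (Finset.mem_filter.mp h1).2.1
  have hl : ∀ ρ ∈ U', m ≤ f (zz ρ) ∧ f (zz ρ) ≤ M := by
    intro ρ h1
    obtain ⟨h2, h3⟩ := hzz ρ h1
    refine hf _ h2 ?_
    have h4 : r (zz ρ) ∈ U := by
      rw [h3]
      exact hU1 ρ h1
    exact h4
  have hcl : ∀ ρ ∈ U', ∀ z, G z → r z = ρ → |f z - f (zz ρ)| ≤ ε := by
    intro ρ h1 z h2 h3
    obtain ⟨h4, h5⟩ := hzz ρ h1
    refine hff z (zz ρ) h2 h4 ?_ fun i => ?_
    · have h6 : r z ∈ U := by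
        rw [h3]
        exact hU1 ρ h1
      exact h6
    · have h6 : r z = r (zz ρ) := h3.trans h5.symm
      exact congrFun h6 i
  -- the counting functions
  set cc : ℝ → (ι → ZMod q) → ℕ → ℝ := fun l ρ Y => ({z : ι → ℤ | (fun i => (z i : ZMod q)) ∈
    ({ρ} : Set (ι → ZMod q)) ∧ (fun i => (z i : ℝ) / Y) ∈ A D Ψ s l}.ncard : ℝ) /
      (Y : ℝ) ^ Fintype.card ι with hcc
  have hlim : ∀ l, 0 < l → ∀ ρ, Tendsto (cc l ρ) atTop
      (𝓝 (V D Ψ s l / (q : ℝ) ^ Fintype.card ι)) := by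
    intro l hl0 ρ
    have h1 := h ι (A D Ψ s l) (hb.subset fun u hu => hu.1) (A_meas hD hΨ s l)
      (measure_mono_null (A_front hD hΨ s hl0) (measure_union_null hfr (hn _ (div_pos hs hl0))))
      q hq {ρ}
    rw [Set.ncard_singleton, Nat.cast_one, mul_one] at h1
    exact h1
  refine ⟨∑ ρ ∈ U', V D Ψ s (f (zz ρ)) / (q : ℝ) ^ Fintype.card ι, ?_⟩
  have hη' : 0 < η / 2 / (q : ℝ) ^ Fintype.card ι := by positivity
  have hev : ∀ᶠ Y : ℕ in atTop, ∀ ρ ∈ U',
      |cc (f (zz ρ) + ε) ρ Y - V D Ψ s (f (zz ρ) + ε) / (q : ℝ) ^ Fintype.card ι| <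
        η / 2 / (q : ℝ) ^ Fintype.card ι ∧
      |cc (f (zz ρ) - ε) ρ Y - V D Ψ s (f (zz ρ) - ε) / (q : ℝ) ^ Fintype.card ι| <
        η / 2 / (q : ℝ) ^ Fintype.card ι := by
    rw [Filter.eventually_all_finset]
    intro ρ hρ
    obtain ⟨h1, h2⟩ := hl ρ hρ
    refine Filter.Eventually.and ?_ ?_
    · have h3 := (Metric.tendsto_nhds.mp (hlim (f (zz ρ) + ε) (by linarith) ρ)) _ hη'
      simpa only [Real.dist_eq] using h3
    · have h3 := (Metric.tendsto_nhds.mp (hlim (f (zz ρ) - ε) (by linarith) ρ)) _ hη'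
      simpa only [Real.dist_eq] using h3
  filter_upwards [hev, eventually_ge_atTop 1] with Y hY hY1
  have hYR : (1 : ℝ) ≤ Y := by exact_mod_cast hY1
  have hYp : (0 : ℝ) < (Y : ℝ) ^ Fintype.card ι := by positivity
  -- the sets
  set S : Set (ι → ℤ) := {z : ι → ℤ | (fun i => (z i : ZMod q)) ∈ U ∧
    (fun i => (z i : ℝ) / Y) ∈ D ∧ Ψ (fun i => (z i : ℝ) / Y) * f z ≤ s} with hS
  have hSf : S.Finite := (fin_pts hb hY1).subset fun z hz => hz.2.1
  have hmap : ∀ z ∈ hSf.toFinset, r z ∈ U' := by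
    intro z hz
    obtain ⟨h1, h2, h3⟩ := hSf.mem_toFinset.mp hz
    exact Finset.mem_filter.mpr ⟨Finset.mem_univ _, h1, z, hG Y z hY1 h1 h2, rfl⟩
  have hcard : (S.ncard : ℝ) = ∑ ρ ∈ U', (#(hSf.toFinset.filter fun z => r z = ρ) : ℝ) := by
    rw [Set.ncard_eq_toFinset_card S hSf, Finset.card_eq_sum_card_fiberwise hmap]
    push_cast
    rfl
  have hlow : ∀ ρ ∈ U', cc (f (zz ρ) + ε) ρ Y ≤
      (#(hSf.toFinset.filter fun z => r z = ρ) : ℝ) / (Y : ℝ) ^ Fintype.card ι := by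
    intro ρ hρ
    rw [hcc]
    refine div_le_div_of_nonneg_right ?_ hYp.le
    rw [← Set.ncard_coe_finset]
    have h1 : {z : ι → ℤ | (fun i => (z i : ZMod q)) ∈ ({ρ} : Set (ι → ZMod q)) ∧
        (fun i => (z i : ℝ) / Y) ∈ A D Ψ s (f (zz ρ) + ε)} ⊆
        ((hSf.toFinset.filter fun z => r z = ρ : Finset (ι → ℤ)) : Set (ι → ℤ)) := by
      rintro z ⟨h2, h3, h4⟩
      have h2' : r z = ρ := h2
      rw [Finset.mem_coe, Finset.mem_filter, hSf.mem_toFinset]
      have h5 : r z ∈ U := by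
        rw [h2']
        exact hU1 ρ hρ
      refine ⟨⟨h5, h3, ?_⟩, h2'⟩
      have h6 := (abs_le.mp (hcl ρ hρ z (hG Y z hY1 h5 h3) h2')).2
      have h7 := hpos _ h3
      have h8 : Ψ (fun i => (z i : ℝ) / Y) * f z ≤
          Ψ (fun i => (z i : ℝ) / Y) * (f (zz ρ) + ε) :=
        mul_le_mul_of_nonneg_left (by linarith) h7.le
      exact h8.trans h4
    exact_mod_cast Set.ncard_le_ncard h1 (Finset.finite_toSet _)
  have hupp : ∀ ρ ∈ U', (#(hSf.toFinset.filter fun z => r z = ρ) : ℝ) /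
      (Y : ℝ) ^ Fintype.card ι ≤ cc (f (zz ρ) - ε) ρ Y := by
    intro ρ hρ
    rw [hcc]
    refine div_le_div_of_nonneg_right ?_ hYp.le
    rw [← Set.ncard_coe_finset]
    have h1 : ((hSf.toFinset.filter fun z => r z = ρ : Finset (ι → ℤ)) : Set (ι → ℤ)) ⊆
        {z : ι → ℤ | (fun i => (z i : ZMod q)) ∈ ({ρ} : Set (ι → ZMod q)) ∧
        (fun i => (z i : ℝ) / Y) ∈ A D Ψ s (f (zz ρ) - ε)} := by
      intro z hz
      rw [Finset.mem_coe, Finset.mem_filter, hSf.mem_toFinset] at hz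
      obtain ⟨⟨h2, h3, h4⟩, h5⟩ := hz
      refine ⟨h5, h3, ?_⟩
      have h6 := (abs_le.mp (hcl ρ hρ z (hG Y z hY1 h2 h3) h5)).1
      have h7 := hpos _ h3
      have h8 : Ψ (fun i => (z i : ℝ) / Y) * (f (zz ρ) - ε) ≤
          Ψ (fun i => (z i : ℝ) / Y) * f z :=
        mul_le_mul_of_nonneg_left (by linarith) h7.le
      exact h8.trans h4
    exact_mod_cast Set.ncard_le_ncard h1 ((fin_pts hb hY1).subset fun z hz => hz.2.1)
  have hone : ∀ ρ ∈ U', |(#(hSf.toFinset.filter fun z => r z = ρ) : ℝ) /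
      (Y : ℝ) ^ Fintype.card ι - V D Ψ s (f (zz ρ)) / (q : ℝ) ^ Fintype.card ι| ≤
      η / (q : ℝ) ^ Fintype.card ι := by
    intro ρ hρ
    obtain ⟨h1, h2⟩ := hl ρ hρ
    obtain ⟨h3, h4⟩ := hY ρ hρ
    have h5 : |V D Ψ s (f (zz ρ) + ε) - V D Ψ s (f (zz ρ))| < η / 2 := by
      refine hV _ ⟨by linarith, by linarith⟩ _ ⟨by linarith, by linarith⟩ ?_
      rw [add_sub_cancel_left, abs_of_pos hε0]
      linarith
    have h6 : |V D Ψ s (f (zz ρ) - ε) - V D Ψ s (f (zz ρ))| < η / 2 := by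
      refine hV _ ⟨by linarith, by linarith⟩ _ ⟨by linarith, by linarith⟩ ?_
      rw [sub_sub_cancel_left, abs_neg, abs_of_pos hε0]
      linarith
    have h5' := (abs_lt.mp h5).1
    have h6' := (abs_lt.mp h6).2
    have h3' := (abs_lt.mp h3).1
    have h4' := (abs_lt.mp h4).2
    have e1 : V D Ψ s (f (zz ρ)) / (q : ℝ) ^ Fintype.card ι - η / 2 / (q : ℝ) ^ Fintype.card ι ≤
        V D Ψ s (f (zz ρ) + ε) / (q : ℝ) ^ Fintype.card ι := by
      rw [← sub_div]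
      exact div_le_div_of_nonneg_right (by linarith) hqR.le
    have e2 : V D Ψ s (f (zz ρ) - ε) / (q : ℝ) ^ Fintype.card ι ≤
        V D Ψ s (f (zz ρ)) / (q : ℝ) ^ Fintype.card ι + η / 2 / (q : ℝ) ^ Fintype.card ι := by
      rw [← add_div]
      exact div_le_div_of_nonneg_right (by linarith) hqR.le
    have e3 : η / (q : ℝ) ^ Fintype.card ι =
        η / 2 / (q : ℝ) ^ Fintype.card ι + η / 2 / (q : ℝ) ^ Fintype.card ι := by
      rw [← add_div, add_halves]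
    rw [abs_le, e3]
    have h7 := hlow ρ hρ
    have h8 := hupp ρ hρ
    constructor
    · linarith
    · linarith
  rw [hcard, Finset.sum_div, ← Finset.sum_sub_distrib]
  refine (Finset.abs_sum_le_sum_abs _ _).trans ((Finset.sum_le_sum hone).trans ?_)
  rw [Finset.sum_const, nsmul_eq_mul, mul_div_assoc', div_le_iff₀ hqR, mul_comm]
  exact mul_le_mul_of_nonneg_left hU'c hη.le

end Pool.Agent.Y100.KF
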